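import Mathlib
import Pool.Agent.Q64.N.Main
import Pool.Agent.Q64.L.Thms

/-!
# Statement B for the products of open varieties with abelian varieties: Newton strata

Fix a prime number `p` and a nonempty finite set `κ`. For `i` in `κ` let `g i` be a dimension and
let `sl i j`, `j < g i`, be rational numbers between `0` and `1 / 2` such that the `sl i j` and
`1 - sl i j` are the slopes of a symmetric Newton polygon with integral break points (`IsNewton`)
which is not the supersingular one, that is `sl i j < 1 / 2` for some `j`. Let `r` be an integer
smaller than all the `g i`, and let `E` be a number field. By the theorem of Honda and Tate,
`Stratum g sl p a` is the set of the families of isogeny classes of abelian varieties of dimensions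
`g i` over the field with `q = p ^ a` elements with these Newton polygons; it consists of the
families `f i` of the characteristic polynomials of Frobenius.

As `a → ∞`, the number of the families in `Stratum g sl p a` tends to infinity, and **the
proportion of those families for which the following is true tends to one**: for all `N` and
`ε > 0` there is an `a₀` such that for `a ≥ a₀` there are at least `N` families, and at most `ε`
times their number are exceptions.

Let `A` be an abelian variety over the field with `Q = q ^ s` elements, `s > 0`, which is isogenous
to a product of powers of abelian varieties coming from the field with `q` elements, with
characteristic polynomials `f i`, and let `X` be **any** smooth variety, proper or not, over the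
field with `Q` elements such that

* the eigenvalues `ρ` of Frobenius on the `ℓ`-adic cohomology of `X` and their conjugates are in a
  group of rank at most `r` over `E` (`RootsRank`): there are nonzero numbers `u 1, ..., u r` such
  that each `ρ` has a power which is the product of a nonzero element of `E` and of integral powers
  of `u 1, ..., u r`;
* the Frobenius endomorphism of `X` satisfies on each group of the Chow groups of `A × X` a nonzero
  polynomial with rational coefficients whose complex roots are of this kind. For instance this is
  so if the motive of `X` is built from finite-dimensional motives (Kimura) of smooth projective
  varieties which satisfy the first condition.

**For every `i` the statement `B^i(A × X)` (the cycle map is bijective onto the Galois invariants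
of `H^(2 i)`, and the eigenvalue `1` of Frobenius is semisimple) is true if and only if the
statements `B^(i - k)(X)`, `0 ≤ k ≤ dim A`, are true.** The Chow groups of `A × X` and the Galois
invariants satisfy a Kunneth formula, with finitely many products of divisor classes on `A`. No
case of the conjectures is assumed.

The file `AbelianTimesSmooth` in this folder is about the surjectivity and the semisimplicity, for
almost all abelian varieties of fixed dimension over large finite fields. Here the injectivity of
the cycle map is included, and the abelian varieties are almost all those with given Newton
polygons.

What is used of `A` are known theorems (`IsAbelian`): `H(A)` is generated by `H^1`, Frobenius is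
diagonalizable on `H^1` (Weil), the theorem of Tate on divisors, and the nilpotence of
homologically trivial correspondences (Kimura). The theories relative to `X` are modelled by
`RelData`, with the formal properties in `IsTheory`: degrees, products with classes on `A`,
push-forward to `X`, the projection formula, the operation of the correspondences of `A` and of the
Frobenius endomorphism of `X`. The group of bidegree `(i, j)` is `H^i(X, j)`, resp.
`H^i(A × X, j)`; the Frobenius endomorphism of `A × X` is the multiplication by `Q ^ j` on the Chow
groups (`IsPure`) and on the Galois invariants of the `ℓ`-adic cohomology groups (`InvN`, `InvM`);
the generalized eigenvectors are in `GenN`, `GenM`.

For `r = 0` the assumption on the eigenvalues says that they and their conjugates have powers in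
`E`. If for instance a factor of this kind over the field with `q' = p ^ b` elements is given, one
can take for `E` the field generated by the Frobenius eigenvalues and their conjugates, and apply
the theorem to the fields with `q = p ^ a` elements, `b | a`. A supersingular abelian variety may
always be added to the other factor.

Relation to other results. `AbelianTimesSmooth` (this folder) is about almost all abelian varieties
of given dimensions. Almost all of these are ordinary, and each other Newton polygon belongs to a
proportion of the isogeny classes which tends to zero; so that theorem says nothing about any
Newton polygon which is not ordinary. Here the characteristic and the Newton polygons are given: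
for instance one obtains almost all those abelian varieties of a given dimension at least three,
over the fields of characteristic `p`, which have `p`-rank zero and are not supersingular.
`AllCMTypesTimesOpen` and `SmallSlopeDeviation` (this folder) are about abelian varieties with
given fields. The count of the families in a stratum is that of helper518 (`NewtonStrata`,
MP_ee618e_ag, where it is applied to the Tate conjecture for the products of the abelian varieties
in the stratum and supersingular ones).

The proof. The elements of the stratum correspond to integral points in a box whose sides tend to
infinity: the coefficients of the trace polynomials, divided by the powers of `p` prescribed by the
Newton polygons (helper518). We apply the sieve only with primes which split completely in the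
Galois closure of `E`; there are infinitely many (Chebotarev, formalized by helper401). So for
almost all families the trace polynomials are irreducible, and each pair `α`, `q / α` of roots can
be exchanged by a Galois automorphism which fixes all the other roots of all the `f i` and all
elements of `E`. No root is supersingular, as some slope is smaller than `1 / 2`. A multiplicative
relation between `ρ`, a power of `q` and roots of the `f i`, other than those which follow from
`α (q / α) = q`, expresses some power of `α ^ 2 / q`, for all roots `α` of one `f i`, by conjugates
of `ρ`; by the automorphisms above these `g i > r` numbers are multiplicatively independent, also
modulo `E`, which is a contradiction. It follows that the correspondence on `A` given by the sum of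
the products of dual classes of divisor products acts as the identity on the part of the theory of
`A × X` in question: on the generalized eigenspace of the Frobenius endomorphism of `A × X` for
`Q ^ j`, the Frobenius endomorphism of `A` satisfies a power of the polynomial reciprocal to that
of the Frobenius endomorphism of `X`; this polynomial is prime to the one whose value on `H(A)`
lies in the part generated by divisors, and the difference of the two correspondences is nilpotent.
So the theory of `A × X` is, on this part, the direct sum of copies of the one of `X` (Kunneth
formula), compatibly with the regulators.
-/

set_option autoImplicit false

namespace Pool.Agent.Results.MP_81632f_ag.NewtonStrata

open Polynomial Pool.Agent.Q64.P Pool.Agent.Q64.N Pool.Agent.Q64.L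
open Pool.Agent.Q64.L (RootsRank)

/-- **The statement `B^i` (the cycle map is bijective onto the Frobenius invariants and the
eigenvalue is semisimple) holds for `A × X` if and only if `B^(i - k)` holds for `X` for all
`0 ≤ k ≤ dim A`, for all smooth varieties `X`, proper or not, whose Frobenius eigenvalues and their
conjugates are of rank at most `r` over `E`, for almost all families of abelian varieties in each
Newton stratum over the fields of characteristic `p`.** -/
theorem result {κ : Type} [Fintype κ] [Nonempty κ] (p : ℕ) [Fact p.Prime]
    -- dimensions and Newton polygons
    (g : κ → ℕ) (sl : ∀ i, Fin (g i) → ℚ) (hsl : ∀ i, IsNewton (sl i))
    (hss : ∀ i, ∃ j, sl i j < 1 / 2)
    -- the rank and the number field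
    (r : ℕ) (hr : ∀ i, r < g i) (E : IntermediateField ℚ ℂ) [FiniteDimensional ℚ E]
    -- a number of families, a proportion of exceptions
    (N : ℕ) (ε : ℝ) (hε : 0 < ε) :
    ∃ a₀ : ℕ, ∀ a, a₀ ≤ a →
      (Stratum g sl p a).Finite ∧ N ≤ (Stratum g sl p a).ncard ∧
      ({f ∈ Stratum g sl p a | ¬ BReduces (RootsRank E r) (p ^ a) f}.ncard : ℝ) ≤
        ε * ((Stratum g sl p a).ncard : ℝ) :=
  strata p g sl hsl hss r hr E (fun a f => BReduces (RootsRank E r) (p ^ a) f)
    (fun _ _ _ hq hG => bReduces hq hG) N ε hε

end Pool.Agent.Results.MP_81632f_ag.NewtonStrata
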