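import Pool.Agent.Q60.SS.Open

/-!
# MP_81632f_ag: a zero-one law for the semisimplicity of the eigenvalue 1 on powers (Q2)

Let `U` be a smooth variety over a finite field with `q` elements, not necessarily proper, `t_n` the
dimension of the space of all the classes in the `H^(2 i) (U^n) (i)` fixed by the Frobenius and `z_n`
the sum over `i` of the multiplicities of the eigenvalue `1` on the `H^(2 i) (U^n) (i)`.

* `t_n = z_n` means that the eigenvalue `1` is semisimple on all the `H^(2 i) (U^n) (i)`.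
* Either this holds for all `n`, or `t_n ≤ C z_n / √n` for a constant `C` and all `n`.
* So if for some `ε > 0` fixed classes (for instance the classes of algebraic cycles) account for at
  least `ε z_n` on infinitely many powers, then the eigenvalue `1` is semisimple for all powers.
-/

set_option autoImplicit false

open Module Filter Topology

universe u v w

namespace Pool.Agent.Results.MP_81632f_ag.OpenZeroOne

open Pool.Agent.Q60.SS

/-- **The zero-one law for the semisimplicity of the eigenvalue 1.** -/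
theorem result {k : Type u} [Field k] [Finite k] {Ω : Type w} [Field Ω] [CharZero Ω]
    [IsAlgClosed Ω] {T : OTheory.{u, v, w} k Ω} (hT : T.IsOpen) (U : OVar.{u} k) :
    (∀ n, 0 < poleOrder (T.H (U.pow n)) (Nat.card k)) ∧
    (∀ n, tateDim (T.H (U.pow n)) (Nat.card k) = poleOrder (T.H (U.pow n)) (Nat.card k) ↔
      ∀ i, SemisimpleAt (T.H (U.pow n)) (Nat.card k) i) ∧
    ((∀ n i, SemisimpleAt (T.H (U.pow n)) (Nat.card k) i) ∨
      ∃ C : ℝ, 0 < C ∧ ∀ n : ℕ, √((n + 1 : ℕ) : ℝ) *
        (tateDim (T.H (U.pow n)) (Nat.card k) : ℝ) ≤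
          C * (poleOrder (T.H (U.pow n)) (Nat.card k) : ℝ)) ∧
    (∀ (A : ∀ n, ℕ → Submodule Ω (T.H (U.pow n)).V), (∀ n i, A n i ≤
        (T.H (U.pow n)).gr (2 * i) ⊓ (T.H (U.pow n)).F.eigenspace ((Nat.card k : Ω) ^ i)) →
      ∀ ε : ℝ, 0 < ε → (∃ᶠ n in atTop, ε * (poleOrder (T.H (U.pow n)) (Nat.card k) : ℝ) ≤
        ((∑ᶠ i : ℕ, (finrank Ω (A n i) : ℤ) : ℤ) : ℝ)) →
      ∀ n i, SemisimpleAt (T.H (U.pow n)) (Nat.card k) i) := by
  have h0 := fun n => tateDim_eq_iff (hT.coh (U.pow n)) (Nat.card k)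
  obtain ⟨h1, h2⟩ := tate_zero_one (R := fun n => T.H (U.pow n)) (q := Nat.card k) (hT.coh U)
    (fun n => (hT.coh _).isInternal) (fun n => hT.kunneth U (U.pow n))
    (hasTate_of_hasUnit (hT.unit U) _)
  refine ⟨h1, h0, ?_, fun A hA ε hε h => ?_⟩
  · rcases h2 with h2 | h2
    · exact Or.inl fun n => (h0 n).1 (h2 n)
    · exact Or.inr h2
  · intro n
    rw [← h0 n]
    refine eq_of_tate (R := fun n => T.H (U.pow n)) (q := Nat.card k) (hT.coh U)
      (fun n => (hT.coh _).isInternal) (fun n => hT.kunneth U (U.pow n))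
      (hasTate_of_hasUnit (hT.unit U) _) hε (h.mono fun n hn => hn.trans ?_) n
    exact_mod_cast sub_le_tateDim (hT.coh _) _ (hA n)

end Pool.Agent.Results.MP_81632f_ag.OpenZeroOne
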